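import Pool.Agent.Y297.NT.Pull
import Pool.Agent.Y71.NT.Abh
import Pool.Agent.W619.PQ.Dual

/-!
# Project SX, part PULL (helper123): pull-backs of logarithmic canonical forms, the core

The logarithmic version of `Pool.Agent.Y297.NT.t_Pull`, after `Pool.Agent.W73.PG.PULL.main`.
-/

set_option autoImplicit false
set_option linter.overlappingInstances false
set_option linter.unusedSectionVars false

open FF Polynomial Pool.Agent.W602.GT Pool.Agent.W603.LV Pool.Agent.W619.PQ Pool.Agent.W619.TW

namespace Pool.Agent.N123.SX

theorem core (E R : Type) [Field E] [Field R] [Algebra ℂ E] [Algebra ℂ R] [Algebra E R]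
    [IsScalarTower ℂ E R] [Algebra.EssFiniteType ℂ E] (m N : ℕ) (hm : Algebra.trdeg ℂ E = m)
    (hN : Algebra.trdeg ℂ R = N) (x : Fin m → E) (hx : IsTranscendenceBasis ℂ x)
    (BX : Place ℂ E → Prop) (ω : (Fin m → Derivation ℂ E E) → E) (hω : IsPluri 1 ω)
    (hsec : ∀ P : Place ℂ E, Divisorial m P → LogAt P ω ∧ (¬ BX P → RegAt P ω))
    (EE : Fin m → Derivation ℂ E E) (hEE : ∀ i j, EE i (x j) = if i = j then 1 else 0)
    (Q : Place ℂ R) (hQ : Divisorial N Q) (D : Fin m → Derivation ℂ R R)
    (hD : (∀ i, DerLog Q (D i)) ∨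
      ((¬ ∃ (P : Place ℂ E) (e : ℕ), BX P ∧ Over Q P e) ∧ ∀ i, DerReg Q (D i))) :
    Q.Reg ((Matrix.of fun i j => D i (algebraMap E R (x j)) : Matrix (Fin m) (Fin m) R).det *
      algebraMap E R (ω EE)) := by
  classical
  by_cases htriv : ∃ f : E, Q.ord (algebraMap E R f) ≠ 0
  · obtain ⟨e, P, hP⟩ := exists_over Q htriv
    have hPd : Divisorial m P := Pool.Agent.Y71.NT.t_abh E R m N hm hN Q P e hP hQ
    obtain ⟨yP, EP, i0, hbas, hdual, ht, hyreg, hpres⟩ :=
      Pool.Agent.W240.PG.Frame.main.{0, 0} Pool.Agent.W762.PG.main ℂ E m hm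
        (fun y hy => Pool.Agent.Y297.NT.fd_basis hy) P hPd
    have h1 := Pool.Agent.W73.PG.PULL.form_eq (L := R) x yP hx hbas EE EP hEE hdual
      (m := 1) ω hω D
    rw [pow_one, pow_one] at h1
    rw [h1]
    rcases hD with hD | ⟨hnB, hD⟩
    · -- logarithmic vector fields
      have ht0 : yP i0 ≠ 0 := by
        intro h0
        rw [h0, P.ord_zero] at ht
        exact zero_ne_one ht
      have hT0 : algebraMap E R (yP i0) ≠ 0 := by simpa using ht0
      let c : Fin m → E := fun i => if i = i0 then yP i0 else 1
      have hc : ∀ i, P.Reg (c i) := by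
        intro i
        by_cases hi : i = i0
        · simp only [c, hi, if_true]; exact hyreg i0
        · simp only [c, hi, if_false]; exact P.reg_one
      have hdet : (Matrix.diagonal c).det = yP i0 := by
        rw [Matrix.det_diagonal]
        simp only [c, Finset.prod_ite_eq', Finset.mem_univ, if_true]
      obtain ⟨E'', hE''⟩ : ∃ E'' : Fin m → Derivation ℂ E E, E'' = fun i => c i • EP i :=
        ⟨_, rfl⟩
      have hEa : ∀ i f, E'' i f = c i * EP i f := by
        intro i f
        rw [hE'']; rfl
      have hω2 : ω E'' = yP i0 * ω EP := by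
        have h2 := hω (Matrix.diagonal c) EP
        have h3 : (fun i => ∑ j, (Matrix.diagonal c) i j • EP j) = E'' := by
          funext i
          rw [hE'', Finset.sum_eq_single i]
          · rw [Matrix.diagonal_apply_eq]
          · intro b _ hb
            rw [Matrix.diagonal_apply_ne _ (Ne.symm hb), zero_smul]
          · intro hi
            exact absurd (Finset.mem_univ i) hi
        rw [h3, hdet, pow_one] at h2
        exact h2
      have hlog : ∀ l, DerLog P (E'' l) := by
        intro l f
        refine log_of_pres P (E'' l) (fun g hg => ?_) ht0 ht ?_ f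
        · rw [hEa]
          exact P.reg_mul (hc l) (hpres l g hg)
        · rw [hEa, hdual]
          by_cases hl : l = i0
          · simp only [c, hl, if_true, mul_one]
            rw [div_self ht0]
            exact P.reg_one
          · simp only [hl, if_false, mul_zero, zero_div]
            exact P.reg_zero
      have hd : P.Reg (ω E'') := (hsec P hPd).1 E'' hlog
      let M2 : Matrix (Fin m) (Fin m) R := Matrix.of fun a b =>
        if b = i0 then D a (algebraMap E R (yP i0)) / algebraMap E R (yP i0)
        else D a (algebraMap E R (yP b))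
      have hM : (Matrix.of fun a b => D a (algebraMap E R (yP b))) =
          M2 * (Matrix.diagonal fun i => algebraMap E R (c i)) := by
        ext a b
        rw [Matrix.mul_diagonal]
        simp only [Matrix.of_apply, M2, c]
        by_cases hb : b = i0
        · simp only [hb, if_true]
          rw [div_mul_cancel₀ _ hT0]
        · simp only [hb, if_false, map_one, mul_one]
      have hdet2 : (Matrix.diagonal fun i => algebraMap E R (c i)).det =
          algebraMap E R (yP i0) := by
        rw [Matrix.det_diagonal, ← map_prod, ← Matrix.det_diagonal, hdet]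
      have hfin2 : (Matrix.of fun a b => D a (algebraMap E R (yP b))).det *
          algebraMap E R (ω EP) = M2.det * algebraMap E R (ω E'') := by
        rw [hM, Matrix.det_mul, hdet2, hω2, map_mul, mul_assoc]
      rw [hfin2]
      refine Q.reg_mul ?_ (hP.reg.2 hd)
      have h9 : Ge Q 0 M2.det := by
        refine ge_det Q _ (fun a b => ?_)
        by_cases hb : b = i0
        · simp only [M2, Matrix.of_apply, hb, if_true]
          exact hD a _
        · simp only [M2, Matrix.of_apply, hb, if_false]
          by_cases hz : algebraMap E R (yP b) = 0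
          · rw [hz, map_zero]; exact Ge.zero
          · have h2 : Ge Q 0 (D a (algebraMap E R (yP b)) / algebraMap E R (yP b)) := hD a _
            have h3 : Ge Q 0 (algebraMap E R (yP b)) := hP.reg.2 (hyreg b)
            have h4 := h2.mul h3
            rw [div_mul_cancel₀ _ hz] at h4
            simpa using h4
      exact h9
    · -- regular vector fields
      refine Q.reg_mul ?_ ?_
      · have h9 : Ge Q 0 (Matrix.of fun a c => D a (algebraMap E R (yP c)) :
            Matrix (Fin m) (Fin m) R).det :=
          ge_det Q _ fun a b => hD a _ (hP.reg.2 (hyreg b))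
        exact h9
      · exact hP.reg.2 ((hsec P hPd).2 (fun hb => hnB ⟨P, e, hb, hP⟩) EP hpres)
  · push Not at htriv
    have h0 : ∀ f : E, Q.Reg (algebraMap E R f) := fun f => Or.inr (htriv f).ge
    refine Q.reg_mul ?_ (h0 _)
    have h9 : Ge Q 0 (Matrix.of fun i j => D i (algebraMap E R (x j)) :
        Matrix (Fin m) (Fin m) R).det := by
      refine ge_det Q _ fun a b => ?_
      rcases hD with hD | ⟨_, hD⟩
      · by_cases hz : algebraMap E R (x b) = 0
        · simp only [Matrix.of_apply]
          rw [hz, map_zero]
          exact Ge.zero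
        · have h2 : Ge Q 0 (D a (algebraMap E R (x b)) / algebraMap E R (x b)) := hD a _
          have h3 : Ge Q 0 (algebraMap E R (x b)) := h0 _
          have h4 := h2.mul h3
          rw [div_mul_cancel₀ _ hz] at h4
          simpa using h4
      · exact hD a _ (h0 _)
    exact h9

theorem sum_smul_der {K : Type} [Field K] [Algebra ℂ K] {ι : Type} (s : Finset ι) (c : ι → K)
    (D : ι → Derivation ℂ K K) (f : K) :
    (∑ j ∈ s, c j • D j) f = ∑ j ∈ s, c j * D j f := by
  classical
  induction s using Finset.induction_on with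
  | empty => simp
  | insert a s ha ih =>
    rw [Finset.sum_insert ha, Finset.sum_insert ha, Derivation.add_apply, ih,
      Derivation.smul_apply, smul_eq_mul]

/-- the form `f dx_1 ∧ … ∧ dx_m` is `1`-pluricanonical -/
theorem fm_pluri {K : Type} [Field K] [Algebra ℂ K] {n : ℕ} (y : Fin n → K) (t : K) :
    IsPluri 1 (fun D : Fin n → Derivation ℂ K K =>
      (Matrix.of fun i j => D i (y j) : Matrix (Fin n) (Fin n) K).det * t) := by
  intro A D
  have e1 : (Matrix.of fun a b => (∑ j, A a j • D j) (y b)) =
      A * Matrix.of fun a b => D a (y b) := by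
    ext a b
    rw [Matrix.of_apply, Matrix.mul_apply, sum_smul_der]
    rfl
  change (Matrix.of fun a b => (∑ j, A a j • D j) (y b)).det * _ = _
  rw [e1, Matrix.det_mul, pow_one, mul_assoc]

/-- the statement `S_PULL` of `Pool.Agent.N145.SX.Stm` with the definitions `HX`, `SecAt` and
`trForm` unfolded -/
theorem pull (E R : Type) [Field E] [Field R] [Algebra ℂ E] [Algebra ℂ R] [Algebra E R]
    [IsScalarTower ℂ E R] [Algebra.EssFiniteType ℂ E] (m N : ℕ) (hm : Algebra.trdeg ℂ E = m)
    (hN : Algebra.trdeg ℂ R = N) (x : Fin m → E) (hx : IsTranscendenceBasis ℂ x)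
    (BX : Place ℂ E → Prop) (f : E)
    (hf : ∀ P : Place ℂ E, Divisorial m P →
      LogAt P (fun D : Fin m → Derivation ℂ E E =>
        (Matrix.of fun i j => D i (x j) : Matrix (Fin m) (Fin m) E).det * f) ∧
      (¬ BX P → RegAt P (fun D : Fin m → Derivation ℂ E E =>
        (Matrix.of fun i j => D i (x j) : Matrix (Fin m) (Fin m) E).det * f)))
    (Q : Place ℂ R) (hQ : Divisorial N Q) (D : Fin m → Derivation ℂ R R)
    (hD : (∀ i, DerLog Q (D i)) ∨
      ((¬ ∃ (P : Place ℂ E) (e : ℕ), BX P ∧ Over Q P e) ∧ ∀ i, DerReg Q (D i))) :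
    Q.Reg ((Matrix.of fun i j => D i (algebraMap E R (x j)) : Matrix (Fin m) (Fin m) R).det *
      algebraMap E R f) := by
  classical
  choose EE hEE using fun j => exists_dual (k := ℂ) x hx j
  have hEE' : ∀ i j, EE i (x j) = if i = j then 1 else 0 := by
    intro i j
    rw [hEE i j]
    simp only [eq_comm]
  have h1 := core E R m N hm hN x hx BX _ (fm_pluri x f) hf EE hEE' Q hQ D hD
  have h3 : (Matrix.of fun i j => EE i (x j) : Matrix (Fin m) (Fin m) E) = 1 := by
    ext i j
    rw [Matrix.of_apply, hEE', Matrix.one_apply]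
  simp only [h3, Matrix.det_one, one_mul] at h1
  exact h1

end Pool.Agent.N123.SX
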