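import Pool.Agent.N145.SX.Stm
import Pool.Agent.N123.SX.PullCore

/-!
# Project SX, part PULL (helper123): pull-backs of logarithmic canonical forms
-/

set_option autoImplicit false
set_option linter.overlappingInstances false
set_option linter.unusedSectionVars false

namespace Pool.Agent.N123.SX

theorem PULL : Pool.Agent.N145.SX.S_PULL := by
  intro E R _ _ _ _ _ _ _ m N hm hN x hx BX f hf Q hQ D hD
  exact pull E R m N hm hN x hx BX f hf Q hQ D hD

end Pool.Agent.N123.SX
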